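import Pool.Agent.H70.APS.Targets

/-!
# MP_0ee698, module S_RSC: rescaling of the projected field
-/

set_option autoImplicit false

open MeasureTheory Set Filter Topology Metric
open scoped ENNReal NNReal ContDiff RealInnerProductSpace

namespace Pool.Agent.H19.APS

open Pool.Agent.H94.IC Pool.Agent.H94.AC Pool.Agent.H92.CK Pool.Agent.H65.AP Pool.Agent.H70.APS

namespace RSC

theorem cv (a : E) {ε : ℝ} (hε : 0 < ε) (g : E → ℝ) :
    ∫ y, g (a + ε • y) = (ε ^ 3)⁻¹ * ∫ z, g z := by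
  have h1 := Measure.integral_comp_smul (volume : Measure E) (fun y => g (a + y)) ε
  rw [h1, integral_add_left_eq_self (μ := (volume : Measure E)) g a, finrank_euclideanSpace_fin,
    abs_of_pos (by positivity), smul_eq_mul]

theorem back (a : E) {ε : ℝ} (hε : 0 < ε) (y : E) : ε⁻¹ • (a + ε • y - a) = y := by
  rw [add_sub_cancel_left, smul_smul, inv_mul_cancel₀ hε.ne', one_smul]

/-- the change of variables in the pairings -/
theorem key {Ω : Set E} (hΩ : IsOpen Ω) (a : E) {ε : ℝ} (hε : 0 < ε) (P X : E → E) :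
    ∫ y, ⟪rs Ω a ε P y, X y⟫ = (ε ^ 3)⁻¹ * ∫ z in Ω, ⟪P z, X (ε⁻¹ • (z - a))⟫ := by
  rw [← integral_indicator hΩ.measurableSet, ← cv a hε]
  refine integral_congr_ae (Eventually.of_forall fun y => ?_)
  show ⟪Ω.indicator P (a + ε • y), X y⟫ =
    Ω.indicator (fun z => ⟪P z, X (ε⁻¹ • (z - a))⟫) (a + ε • y)
  by_cases h : a + ε • y ∈ Ω
  · rw [indicator_of_mem h, indicator_of_mem h, back a hε]
  · rw [indicator_of_notMem h, indicator_of_notMem h, inner_zero_left]

theorem mem_ball_iff (a x : E) {ε δ : ℝ} (hε : 0 < ε) (y : E) :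
    a + ε • y ∈ ball x (δ * ε) ↔ y ∈ ball (ε⁻¹ • (x - a)) δ := by
  rw [mem_ball, mem_ball, dist_eq_norm, dist_eq_norm]
  have h1 : a + ε • y - x = ε • (y - ε⁻¹ • (x - a)) := by
    rw [smul_sub, smul_smul, mul_inv_cancel₀ hε.ne', one_smul]
    abel
  rw [h1, norm_smul, Real.norm_of_nonneg hε.le, mul_comm]
  exact mul_lt_mul_iff_left₀ hε

theorem key2 (a x : E) {ε δ : ℝ} (hε : 0 < ε) (g : E → ℝ) :
    ∫ y in ball (ε⁻¹ • (x - a)) δ, g y =
      (ε ^ 3)⁻¹ * ∫ z in ball x (δ * ε), g (ε⁻¹ • (z - a)) := by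
  rw [← integral_indicator measurableSet_ball, ← integral_indicator measurableSet_ball,
    ← cv a hε]
  refine integral_congr_ae (Eventually.of_forall fun y => ?_)
  show (ball (ε⁻¹ • (x - a)) δ).indicator g y =
    (ball x (δ * ε)).indicator (fun z => g (ε⁻¹ • (z - a))) (a + ε • y)
  by_cases h : a + ε • y ∈ ball x (δ * ε)
  · rw [indicator_of_mem h, indicator_of_mem ((mem_ball_iff a x hε y).1 h), back a hε]
  · rw [indicator_of_notMem h, indicator_of_notMem (fun h' => h ((mem_ball_iff a x hε y).2 h'))]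

theorem fd {F : Type*} [NormedAddCommGroup F] [NormedSpace ℝ F] (f : E → F)
    (hf : Differentiable ℝ f) (a : E) (ε : ℝ) (z v : E) :
    fderiv ℝ (fun z => f (ε⁻¹ • (z - a))) z v = ε⁻¹ • fderiv ℝ f (ε⁻¹ • (z - a)) v := by
  have h0 : HasFDerivAt (fun z : E => ε⁻¹ • (z - a)) (ε⁻¹ • ContinuousLinearMap.id ℝ E) z :=
    ((hasFDerivAt_id z).sub_const a).const_smul ε⁻¹
  have h1 := (hf (ε⁻¹ • (z - a))).hasFDerivAt.comp z h0
  have h2 : (f ∘ fun z : E => ε⁻¹ • (z - a)) = fun z => f (ε⁻¹ • (z - a)) := rfl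
  rw [h2] at h1
  rw [h1.fderiv]
  show fderiv ℝ f (ε⁻¹ • (z - a)) (ε⁻¹ • v) = _
  rw [map_smul]

theorem inner_gr (f : E → ℝ) (z v : E) : ⟪gr f z, v⟫ = fderiv ℝ f z v := by
  show ⟪(InnerProductSpace.toDual ℝ E).symm (fderiv ℝ f z), v⟫ = _
  rw [InnerProductSpace.toDual_symm_apply]

theorem gr_comp (f : E → ℝ) (hf : Differentiable ℝ f) (a : E) (ε : ℝ) (z : E) :
    gr (fun z => f (ε⁻¹ • (z - a))) z = ε⁻¹ • gr f (ε⁻¹ • (z - a)) := by
  refine ext_inner_right ℝ fun v => ?_
  rw [inner_gr, fd f hf, real_inner_smul_left, inner_gr, smul_eq_mul]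

theorem curl_comp (B : E → E) (hB : Differentiable ℝ B) (a : E) (ε : ℝ) (z : E) :
    curl (fun z => B (ε⁻¹ • (z - a))) z = ε⁻¹ • curl B (ε⁻¹ • (z - a)) := by
  unfold curl
  simp only [fd B hB, PiLp.smul_apply, smul_eq_mul]
  ext i
  fin_cases i <;> simp <;> ring

theorem bk_diff (a b : E) (c : ℂ) (k : ℕ) : Differentiable ℝ (bk a b c k) := by
  have h1 : Differentiable ℝ fun y : E => (⟪a, y⟫ : ℂ) :=
    Complex.ofRealCLM.differentiable.comp ((innerSL ℝ a).differentiable)
  have h2 : Differentiable ℝ fun y : E => (⟪b, y⟫ : ℂ) :=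
    Complex.ofRealCLM.differentiable.comp ((innerSL ℝ b).differentiable)
  have h3 : Differentiable ℝ fun y : E => c * cz a b y ^ k := by
    unfold cz
    exact (differentiable_const c).mul ((h1.add (h2.mul (differentiable_const _))).pow k)
  exact Complex.reCLM.differentiable.comp h3

theorem MF_comp (κ q : E → ℝ) (hκ : Differentiable ℝ κ) (hq : Differentiable ℝ q) (a : E)
    (ε : ℝ) (w z : E) :
    MF (fun z => κ (ε⁻¹ • (z - a))) (fun z => q (ε⁻¹ • (z - a))) w z =
      (ε⁻¹ ^ 2) • MF κ q w (ε⁻¹ • (z - a)) := by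
  unfold MF
  rw [gr_comp κ hκ, gr_comp q hq]
  simp only [real_inner_smul_left, real_inner_smul_right, smul_sub, smul_smul]
  congr 1
  · congr 1
    · congr 1
      ring
    · congr 1
      ring
  · congr 1
    ring

theorem memLp (Ω : Set E) (hΩ : IsOpen Ω) (a : E) {ε : ℝ} (hε : 0 < ε) (P : E → E)
    (hP : MemLp P 2 (volume.restrict Ω)) : MemLp (rs Ω a ε P) 2 volume := by
  have h1 : MemLp (Ω.indicator P) 2 volume := (memLp_indicator_iff_restrict hΩ.measurableSet).2 hP
  have h2 : MemLp (fun y => Ω.indicator P (a + y)) 2 volume :=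
    h1.comp_measurePreserving (measurePreserving_add_left volume a)
  have h3 : Measure.map (fun y : E => ε • y) volume =
      ENNReal.ofReal |(ε ^ Module.finrank ℝ E)⁻¹| • (volume : Measure E) :=
    Measure.map_addHaar_smul volume hε.ne'
  have h4 : MemLp (fun y => Ω.indicator P (a + y)) 2 (Measure.map (fun y : E => ε • y) volume) := by
    rw [h3]
    exact h2.smul_measure ENNReal.ofReal_ne_top
  have h5 := (memLp_map_measure_iff h4.1 (measurable_const_smul ε).aemeasurable).1 h4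
  exact h5

end RSC

open RSC in
theorem pf_RSC : T_RSC := by
  intro Ω S a x v ε δ L P D κ hΩ hε hδ hκ hP hN hdiv hcrl hL hmom
  have hs : ContDiff ℝ ∞ fun z : E => ε⁻¹ • (z - a) := by fun_prop
  have hε3 : 0 < (ε ^ 3)⁻¹ := by positivity
  refine ⟨memLp Ω hΩ a hε P hP, ?_, ?_, ?_, ?_⟩
  · have h1 : ∫ y, ‖rs Ω a ε P y‖ ^ 2 = (ε ^ 3)⁻¹ * ∫ z in Ω, ‖P z‖ ^ 2 := by
      rw [← integral_indicator hΩ.measurableSet, ← cv a hε]
      refine integral_congr_ae (Eventually.of_forall fun y => ?_)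
      show ‖Ω.indicator P (a + ε • y)‖ ^ 2 = Ω.indicator (fun z => ‖P z‖ ^ 2) (a + ε • y)
      by_cases h : a + ε • y ∈ Ω
      · rw [indicator_of_mem h, indicator_of_mem h]
      · rw [indicator_of_notMem h, indicator_of_notMem h, norm_zero, zero_pow two_ne_zero]
    rw [h1]
    refine (mul_le_mul_of_nonneg_left hN hε3.le).trans (le_of_eq ?_)
    have h2 : volume (ball x (δ * ε)) = ENNReal.ofReal (ε ^ 3) * volume (ball (0 : E) δ) := by
      have h3 := Measure.addHaar_ball_mul (volume : Measure E) x hε.le δ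
      rw [finrank_euclideanSpace_fin] at h3
      rw [mul_comm δ ε]
      exact h3
    have h4 : volume (ball (ε⁻¹ • (x - a)) δ) = volume (ball (0 : E) δ) :=
      Measure.addHaar_ball_center _ _ _
    rw [h2, h4, ENNReal.toReal_mul, ENNReal.toReal_ofReal (by positivity)]
    have h5 : ε ^ 3 ≠ 0 := by positivity
    field_simp
  · intro φ hφ _
    have hd : Differentiable ℝ φ := hφ.differentiable (by simp)
    have h1 := hdiv (fun z => φ (ε⁻¹ • (z - a))) (hφ.comp hs)
    have h2 : ∀ z, gr (fun z => φ (ε⁻¹ • (z - a))) z = ε⁻¹ • gr φ (ε⁻¹ • (z - a)) :=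
      gr_comp φ hd a ε
    simp only [h2, real_inner_smul_right, integral_const_mul] at h1
    have h3 := mul_left_cancel₀ (inv_ne_zero hε.ne') h1
    rw [key hΩ a hε, h3, key2 a x hε]
  · intro B hB hBc hBs
    have hd : Differentiable ℝ B := hB.differentiable (by simp)
    set hom : E ≃ₜ E := (Homeomorph.subRight a).trans (Homeomorph.smulOfNeZero ε⁻¹ (inv_ne_zero hε.ne'))
      with hhom
    have hap : ∀ z, hom z = ε⁻¹ • (z - a) := fun z => rfl
    have hcomp : (fun z => B (ε⁻¹ • (z - a))) = B ∘ hom := rfl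
    have hts : tsupport (fun z => B (ε⁻¹ • (z - a))) ⊆ Ω \ S := by
      rw [hcomp, tsupport_comp_eq_preimage]
      intro z hz
      have h1 := hBs hz
      rw [hap] at h1
      refine ⟨hL ?_, fun hzS => h1.2 ⟨z, hzS, rfl⟩⟩
      have h2 := h1.1
      rw [mem_ball_zero_iff, norm_smul, norm_inv, Real.norm_of_nonneg hε.le, inv_mul_lt_iff₀ hε] at h2
      rw [mem_ball, dist_eq_norm, mul_comm]
      exact h2
    have h1 := hcrl (fun z => B (ε⁻¹ • (z - a))) (hB.comp hs) (hBc.comp_homeomorph hom) hts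
    have h2 : ∀ z, curl (fun z => B (ε⁻¹ • (z - a))) z = ε⁻¹ • curl B (ε⁻¹ • (z - a)) :=
      curl_comp B hd a ε
    simp only [h2, real_inner_smul_right, integral_const_mul] at h1
    have h3 := (mul_eq_zero.1 h1).resolve_left (inv_ne_zero hε.ne')
    rw [key hΩ a hε, h3, mul_zero]
  · intro a' b' c k w hon hk
    have h1 := hmom a' b' c k w hon hk
    have h2 : ∀ z, MF (fun z => κ (ε⁻¹ • (z - a))) (fun z => bk a' b' c k (ε⁻¹ • (z - a))) w z =
        (ε⁻¹ ^ 2) • MF κ (bk a' b' c k) w (ε⁻¹ • (z - a)) :=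
      MF_comp κ _ (hκ.differentiable (by simp)) (bk_diff a' b' c k) a ε w
    simp only [h2, real_inner_smul_right, integral_const_mul] at h1
    have h3 := (mul_eq_zero.1 h1).resolve_left (pow_ne_zero 2 (inv_ne_zero hε.ne'))
    rw [key hΩ a hε, h3, mul_zero]

end Pool.Agent.H19.APS
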